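import Mathlib

set_option autoImplicit false
open MeasureTheory ProbabilityTheory InformationTheory Filter Topology Set
open scoped ENNReal NNReal

namespace Pool.Agent.Results.MP_e841a3_pr.EntropyRateFails

/-- Lower bound for the relative entropy of a measure carried by `B`. -/
theorem klDiv_ge {μ ν : Measure ℝ} [IsProbabilityMeasure μ] [IsProbabilityMeasure ν] {B : Set ℝ}
    (hμ : μ Bᶜ = 0) {q : ℝ} (hq : 0 < q) (hqν : ν.real B ≤ q) :
    ENNReal.ofReal (- Real.log q) ≤ klDiv μ ν := by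
  by_cases hac : μ ≪ ν
  swap
  · rw [klDiv_of_not_ac hac]; exact le_top
  by_cases hint : Integrable (llr μ ν) μ
  swap
  · rw [klDiv_of_not_integrable hint]; exact le_top
  rw [klDiv_of_ac_of_integrable hac hint]
  apply ENNReal.ofReal_le_ofReal
  simp only [probReal_univ, add_sub_cancel_right]
  have h1 : llr μ ν =ᵐ[μ] fun x => - Real.log (ν.rnDeriv μ x).toReal := by
    filter_upwards [Measure.inv_rnDeriv hac] with x hx
    rw [← hx, llr_def]
    simp [ENNReal.toReal_inv, Real.log_inv]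
  have hpos : ∀ᵐ x ∂μ, 0 < (ν.rnDeriv μ x).toReal := by
    filter_upwards [Measure.inv_rnDeriv hac, Measure.rnDeriv_pos hac,
      hac.ae_le (Measure.rnDeriv_lt_top μ ν)] with x h1 h2 h3
    rw [← h1]
    simp only [Pi.inv_apply, ENNReal.toReal_inv]
    have : 0 < (μ.rnDeriv ν x).toReal := ENNReal.toReal_pos h2.ne' h3.ne
    positivity
  have hr_int : Integrable (fun x => (ν.rnDeriv μ x).toReal) μ :=
    Measure.integrable_toReal_rnDeriv
  have h2 : ∀ᵐ x ∂μ, - Real.log q + (1 - (ν.rnDeriv μ x).toReal / q) ≤ llr μ ν x := by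
    filter_upwards [h1, hpos] with x hx hx0
    rw [hx]
    have h3 : Real.log ((ν.rnDeriv μ x).toReal / q) ≤ (ν.rnDeriv μ x).toReal / q - 1 :=
      Real.log_le_sub_one_of_pos (by positivity)
    rw [Real.log_div hx0.ne' hq.ne'] at h3
    linarith
  have h3 : ∫ x, (ν.rnDeriv μ x).toReal ∂μ ≤ q := by
    have hB : B =ᵐ[μ] (univ : Set ℝ) := by
      rw [ae_eq_univ]; exact hμ
    calc ∫ x, (ν.rnDeriv μ x).toReal ∂μ = ∫ x in B, (ν.rnDeriv μ x).toReal ∂μ := by
          rw [Measure.restrict_congr_set hB, Measure.restrict_univ]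
      _ ≤ ν.real B := Measure.setIntegral_toReal_rnDeriv_le (measure_ne_top _ _)
      _ ≤ q := hqν
  have h4 : ∫ x, (- Real.log q + (1 - (ν.rnDeriv μ x).toReal / q)) ∂μ =
      - Real.log q + (1 - (∫ x, (ν.rnDeriv μ x).toReal ∂μ) / q) := by
    have hi1 : Integrable (fun x => (ν.rnDeriv μ x).toReal / q) μ := hr_int.div_const q
    have hi2 : Integrable (fun x => 1 - (ν.rnDeriv μ x).toReal / q) μ :=
      (integrable_const _).sub hi1
    rw [integral_add (integrable_const _) hi2,
      integral_sub (integrable_const _) hi1, integral_div]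
    simp
  have h5 : ∫ x, (- Real.log q + (1 - (ν.rnDeriv μ x).toReal / q)) ∂μ ≤ ∫ x, llr μ ν x ∂μ :=
    integral_mono_ae ((integrable_const _).add ((integrable_const _).sub (hr_int.div_const q)))
      hint h2
  rw [h4] at h5
  have h6 : (∫ x, (ν.rnDeriv μ x).toReal ∂μ) / q ≤ 1 := by
    rw [div_le_one hq]; exact h3
  linarith

/-- The centre of the positive bump. -/
noncomputable def cen (s : ℝ) : ℝ := Real.sqrt (1 - s ^ 2 / 3)

theorem cen_sq {s : ℝ} (hs : 0 < s) (hs1 : s ≤ 1 / 2) : cen s ^ 2 = 1 - s ^ 2 / 3 := by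
  unfold cen
  apply Real.sq_sqrt
  nlinarith

theorem cen_le {s : ℝ} : cen s ≤ 1 := by
  unfold cen
  apply Real.sqrt_le_one.mpr
  nlinarith [sq_nonneg s]

theorem cen_ge {s : ℝ} (hs : 0 < s) (hs1 : s ≤ 1 / 2) : 3 / 4 ≤ cen s := by
  unfold cen
  apply Real.le_sqrt_of_sq_le
  nlinarith

/-- The two short intervals carrying the law. -/
def bumps (s : ℝ) : Set ℝ := Icc (- cen s - s) (- cen s + s) ∪ Icc (cen s - s) (cen s + s)

/-- The uniform law on the two short intervals. -/
noncomputable def nu (s : ℝ) : Measure ℝ := ENNReal.ofReal (1 / (4 * s)) • volume.restrict (bumps s)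

theorem bumps_disj {s : ℝ} (hs : 0 < s) (hs1 : s ≤ 1 / 2) :
    Disjoint (Icc (- cen s - s) (- cen s + s)) (Icc (cen s - s) (cen s + s)) := by
  rw [Set.disjoint_left]
  intro x hx hy
  have := cen_ge hs hs1
  linarith [hx.2, hy.1]

theorem meas_bumps (s : ℝ) : MeasurableSet (bumps s) := measurableSet_Icc.union measurableSet_Icc

theorem vol_bumps {s : ℝ} (hs : 0 < s) (hs1 : s ≤ 1 / 2) :
    volume (bumps s) = ENNReal.ofReal (4 * s) := by
  unfold bumps
  rw [measure_union (bumps_disj hs hs1) measurableSet_Icc, Real.volume_Icc, Real.volume_Icc,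
    ← ENNReal.ofReal_add (by linarith) (by linarith)]
  congr 1; ring

theorem nu_prob {s : ℝ} (hs : 0 < s) (hs1 : s ≤ 1 / 2) : IsProbabilityMeasure (nu s) := by
  constructor
  rw [nu, Measure.smul_apply, Measure.restrict_apply_univ, vol_bumps hs hs1, smul_eq_mul,
    ← ENNReal.ofReal_mul (by positivity)]
  have : 1 / (4 * s) * (4 * s) = 1 := by field_simp
  rw [this, ENNReal.ofReal_one]

theorem integral_nu {s : ℝ} (hs : 0 < s) (hs1 : s ≤ 1 / 2) (f : ℝ → ℝ) (hf : Continuous f) :
    ∫ x, f x ∂(nu s) = (1 / (4 * s)) * ((∫ x in (- cen s - s)..(- cen s + s), f x) +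
      ∫ x in (cen s - s)..(cen s + s), f x) := by
  rw [nu, integral_smul_measure, ENNReal.toReal_ofReal (by positivity), bumps,
    setIntegral_union (bumps_disj hs hs1) measurableSet_Icc
      (hf.continuousOn.integrableOn_Icc) (hf.continuousOn.integrableOn_Icc),
    integral_Icc_eq_integral_Ioc, integral_Icc_eq_integral_Ioc,
    intervalIntegral.integral_of_le (by linarith), intervalIntegral.integral_of_le (by linarith),
    smul_eq_mul]

theorem nu_mean {s : ℝ} (hs : 0 < s) (hs1 : s ≤ 1 / 2) : ∫ x, x ∂(nu s) = 0 := by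
  rw [integral_nu hs hs1 (fun x => x) continuous_id]
  simp only [integral_id]
  ring

theorem nu_sq {s : ℝ} (hs : 0 < s) (hs1 : s ≤ 1 / 2) : ∫ x, x ^ 2 ∂(nu s) = 1 := by
  rw [integral_nu hs hs1 (fun x => x ^ 2) (by fun_prop)]
  simp only [integral_pow]
  have h := cen_sq hs hs1
  have h2 : (cen s) ^ 2 + s ^ 2 / 3 = 1 := by linarith
  field_simp
  push_cast
  nlinarith

theorem nu_ae (s : ℝ) : ∀ᵐ x ∂(nu s), x ∈ bumps s :=
  Measure.ae_smul_measure (ae_restrict_mem (meas_bumps s)) _

theorem bumps_abs {s : ℝ} (hs1 : s ≤ 1 / 2) {x : ℝ} (hx : x ∈ bumps s) : |x| ≤ 2 := by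
  have h := cen_le (s := s)
  have h0 : 0 ≤ cen s := Real.sqrt_nonneg _
  rcases hx with hx | hx
  · rw [abs_le]; constructor <;> linarith [hx.1, hx.2]
  · rw [abs_le]; constructor <;> linarith [hx.1, hx.2]

theorem nu_fourth_int {s : ℝ} (hs : 0 < s) (hs1 : s ≤ 1 / 2) :
    Integrable (fun x : ℝ => x ^ 4) (nu s) := by
  have := nu_prob hs hs1
  apply Integrable.of_bound (C := 16) (by fun_prop)
  filter_upwards [nu_ae s] with x hx
  have h := bumps_abs hs1 hx
  rw [Real.norm_eq_abs, abs_pow]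
  calc |x| ^ 4 ≤ 2 ^ 4 := pow_le_pow_left₀ (abs_nonneg x) h 4
    _ = 16 := by norm_num

theorem nu_fourth {s : ℝ} (hs : 0 < s) (hs1 : s ≤ 1 / 2) : ∫ x, x ^ 4 ∂(nu s) ≤ 16 := by
  have := nu_prob hs hs1
  have h1 : ∫ x, x ^ 4 ∂(nu s) ≤ ∫ _x, (16 : ℝ) ∂(nu s) := by
    apply integral_mono_ae (nu_fourth_int hs hs1) (integrable_const _)
    filter_upwards [nu_ae s] with x hx
    have h := bumps_abs hs1 hx
    have h2 : x ^ 4 = |x| ^ 4 := by
      rw [← abs_pow]
      exact (abs_of_nonneg (by positivity)).symm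
    simp only [h2]
    calc |x| ^ 4 ≤ 2 ^ 4 := pow_le_pow_left₀ (abs_nonneg x) h 4
      _ = 16 := by norm_num
  simpa using h1

theorem nu_ac (s : ℝ) : nu s ≪ volume :=
  (Measure.restrict_le_self.absolutelyContinuous).smul_left _

/-- Density of `nu s` with respect to the standard Gaussian. -/
noncomputable def dens (s : ℝ) : ℝ → ℝ≥0∞ :=
  (bumps s).indicator (fun x => ENNReal.ofReal (1 / (4 * s) / gaussianPDFReal 0 1 x))

theorem meas_dens (s : ℝ) : Measurable (dens s) := by
  unfold dens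
  apply Measurable.indicator _ (meas_bumps s)
  apply Measurable.ennreal_ofReal
  exact measurable_const.div (measurable_gaussianPDFReal 0 1)

theorem nu_eq (s : ℝ) (hs : 0 < s) : (gaussianReal 0 1).withDensity (dens s) = nu s := by
  rw [gaussianReal_of_var_ne_zero 0 one_ne_zero,
    ← withDensity_mul _ (measurable_gaussianPDF 0 1) (meas_dens s), nu]
  have h : (gaussianPDF 0 1 * dens s) = (bumps s).indicator (fun _ => ENNReal.ofReal (1 / (4 * s))) := by
    funext x
    simp only [Pi.mul_apply, dens]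
    by_cases hx : x ∈ bumps s
    · rw [indicator_of_mem hx, indicator_of_mem hx, gaussianPDF,
        ← ENNReal.ofReal_mul (gaussianPDFReal_nonneg 0 1 x)]
      congr 1
      have := gaussianPDFReal_pos 0 1 x one_ne_zero
      field_simp
    · rw [indicator_of_notMem hx, indicator_of_notMem hx, mul_zero]
  rw [h, withDensity_indicator (meas_bumps s), withDensity_const]

theorem pdf_le_one (x : ℝ) : gaussianPDFReal 0 1 x ≤ 1 := by
  rw [gaussianPDFReal]
  have h1 : (Real.sqrt (2 * Real.pi * ((1 : ℝ≥0) : ℝ)))⁻¹ ≤ 1 := by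
    apply inv_le_one_of_one_le₀
    rw [Real.one_le_sqrt]
    have := Real.pi_gt_three
    simp only [NNReal.coe_one, mul_one]
    linarith
  have h2 : Real.exp (-(x - 0) ^ 2 / (2 * ((1 : ℝ≥0) : ℝ))) ≤ 1 := by
    apply Real.exp_le_one_iff.mpr
    simp only [NNReal.coe_one, mul_one, sub_zero]
    have := sq_nonneg x
    linarith
  calc _ ≤ 1 * 1 := mul_le_mul h1 h2 (Real.exp_pos _).le zero_le_one
    _ = 1 := one_mul 1

theorem pdf_ge {x : ℝ} (hx : |x| ≤ 2) :
    Real.exp (-2) / Real.sqrt (2 * Real.pi) ≤ gaussianPDFReal 0 1 x := by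
  rw [gaussianPDFReal]
  simp only [NNReal.coe_one, mul_one, sub_zero]
  rw [div_eq_inv_mul]
  apply mul_le_mul_of_nonneg_left _ (by positivity)
  apply Real.exp_le_exp.mpr
  have h2 := abs_le.mp hx
  nlinarith

/-- Upper bound for the relative entropy of the summand. -/
theorem klDiv_nu_le {s : ℝ} (hs : 0 < s) (hs1 : s ≤ 1 / 2) :
    klDiv (nu s) (gaussianReal 0 1) ≤
      ENNReal.ofReal (- Real.log s + Real.log (Real.sqrt (2 * Real.pi) * Real.exp 2 / 4)) := by
  have hprob := nu_prob hs hs1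
  have hac : nu s ≪ gaussianReal 0 1 := by
    rw [← nu_eq s hs]; exact withDensity_absolutelyContinuous _ _
  have hrn : (nu s).rnDeriv (gaussianReal 0 1) =ᵐ[nu s] dens s := by
    apply hac.ae_le
    have := Measure.rnDeriv_withDensity (gaussianReal 0 1) (meas_dens s)
    rwa [nu_eq s hs] at this
  set c : ℝ := - Real.log s + Real.log (Real.sqrt (2 * Real.pi) * Real.exp 2 / 4) with hc
  have hsp : 0 < Real.sqrt (2 * Real.pi) := Real.sqrt_pos.mpr (by positivity)
  have hllr : ∀ᵐ x ∂(nu s), 0 - Real.log (4 * s) ≤ llr (nu s) (gaussianReal 0 1) x ∧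
      llr (nu s) (gaussianReal 0 1) x ≤ c := by
    filter_upwards [hrn, nu_ae s] with x hx hxb
    rw [llr_def]
    simp only
    rw [hx, dens, indicator_of_mem hxb]
    have hp := gaussianPDFReal_pos 0 1 x one_ne_zero
    rw [ENNReal.toReal_ofReal (by positivity)]
    constructor
    · have h0 : (0 : ℝ) - Real.log (4 * s) = Real.log (1 / (4 * s)) := by
        rw [Real.log_div one_ne_zero (by positivity), Real.log_one]
      rw [h0]
      apply Real.log_le_log (by positivity)
      rw [le_div_iff₀ hp]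
      calc 1 / (4 * s) * gaussianPDFReal 0 1 x ≤ 1 / (4 * s) * 1 :=
            mul_le_mul_of_nonneg_left (pdf_le_one x) (by positivity)
        _ = 1 / (4 * s) := mul_one _
    · have h1 : c = Real.log (1 / s * (Real.sqrt (2 * Real.pi) * Real.exp 2 / 4)) := by
        rw [Real.log_mul (by positivity) (by positivity), one_div, Real.log_inv]
      rw [h1]
      apply Real.log_le_log (by positivity)
      rw [div_le_iff₀ hp]
      calc 1 / (4 * s) = 1 / s * (Real.sqrt (2 * Real.pi) * Real.exp 2 / 4) *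
            (Real.exp (-2) / Real.sqrt (2 * Real.pi)) := by
            rw [Real.exp_neg]; field_simp
        _ ≤ _ := mul_le_mul_of_nonneg_left (pdf_ge (bumps_abs hs1 hxb)) (by positivity)
  have hint : Integrable (llr (nu s) (gaussianReal 0 1)) (nu s) := by
    apply Integrable.of_bound (C := max |0 - Real.log (4 * s)| |c|)
      (measurable_llr _ _).aestronglyMeasurable
    filter_upwards [hllr] with x hx
    rw [Real.norm_eq_abs]
    exact abs_le_max_abs_abs hx.1 hx.2
  rw [klDiv_of_ac_of_integrable hac hint]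
  apply ENNReal.ofReal_le_ofReal
  simp only [probReal_univ, add_sub_cancel_right]
  have h2 : ∫ x, llr (nu s) (gaussianReal 0 1) x ∂(nu s) ≤ ∫ _x, c ∂(nu s) := by
    apply integral_mono_ae hint (integrable_const _)
    filter_upwards [hllr] with x hx
    exact hx.2
  simpa using h2

/-- The possible values of the normalised sum. -/
def valueSet (s : ℝ) (n : ℕ) : Set ℝ :=
  ⋃ j ∈ Finset.range (n + 1),
    Icc (cen s * (2 * (j : ℝ) - n) / Real.sqrt n - Real.sqrt n * s)
      (cen s * (2 * (j : ℝ) - n) / Real.sqrt n + Real.sqrt n * s)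

theorem gaussian_le_volume (B : Set ℝ) : gaussianReal 0 1 B ≤ volume B := by
  rw [gaussianReal_apply 0 one_ne_zero]
  calc ∫⁻ x in B, gaussianPDF 0 1 x ≤ ∫⁻ _x in B, 1 := by
        apply lintegral_mono
        intro x
        rw [gaussianPDF, ← ENNReal.ofReal_one]
        exact ENNReal.ofReal_le_ofReal (pdf_le_one x)
    _ = volume B := by simp

theorem gaussian_valueSet {s : ℝ} (hs : 0 < s) {n : ℕ} (hn : 1 ≤ n) :
    (gaussianReal 0 1).real (valueSet s n) ≤ 4 * (n : ℝ) ^ 2 * s := by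
  have hn' : (1 : ℝ) ≤ n := by exact_mod_cast hn
  have hsq : Real.sqrt n ≤ n := by
    rw [Real.sqrt_le_left (by positivity)]
    nlinarith
  have h1 : gaussianReal 0 1 (valueSet s n) ≤ ENNReal.ofReal (4 * (n : ℝ) ^ 2 * s) := by
    calc gaussianReal 0 1 (valueSet s n) ≤ volume (valueSet s n) := gaussian_le_volume _
      _ ≤ ∑ j ∈ Finset.range (n + 1), volume
          (Icc (cen s * (2 * (j : ℝ) - n) / Real.sqrt n - Real.sqrt n * s)
            (cen s * (2 * (j : ℝ) - n) / Real.sqrt n + Real.sqrt n * s)) :=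
          measure_biUnion_finset_le _ _
      _ = ∑ j ∈ Finset.range (n + 1), ENNReal.ofReal (2 * (Real.sqrt n * s)) := by
          apply Finset.sum_congr rfl
          intro j _
          rw [Real.volume_Icc]
          congr 1; ring
      _ = ENNReal.ofReal (((n : ℝ) + 1) * (2 * (Real.sqrt n * s))) := by
          have h3 : ((n + 1 : ℕ) : ℝ≥0∞) = ENNReal.ofReal ((n : ℝ) + 1) := by
            rw [← Nat.cast_succ, ENNReal.ofReal_natCast]
          rw [Finset.sum_const, Finset.card_range, nsmul_eq_mul, h3,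
            ← ENNReal.ofReal_mul (by positivity)]
      _ ≤ ENNReal.ofReal (4 * (n : ℝ) ^ 2 * s) := by
          apply ENNReal.ofReal_le_ofReal
          have h2 : ((n : ℝ) + 1) * Real.sqrt n ≤ (2 * n) * n := by
            apply mul_le_mul _ hsq (Real.sqrt_nonneg _) (by positivity)
            linarith
          nlinarith
  rw [measureReal_def]
  exact ENNReal.toReal_le_of_le_ofReal (by positivity) h1

theorem meas_valueSet (s : ℝ) (n : ℕ) : MeasurableSet (valueSet s n) :=
  Finset.measurableSet_biUnion _ (fun _ _ => measurableSet_Icc)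

theorem sum_near (s : ℝ) (x : ℕ → ℝ) (hx : ∀ i, x i ∈ bumps s) (n : ℕ) :
    ∃ j : ℕ, j ≤ n ∧ |(∑ i ∈ Finset.range n, x i) - cen s * (2 * (j : ℝ) - n)| ≤ n * s := by
  induction n with
  | zero => exact ⟨0, le_refl 0, by simp⟩
  | succ n ih =>
    obtain ⟨j, hj, hj2⟩ := ih
    rw [abs_le] at hj2
    rcases hx n with h | h
    · refine ⟨j, by omega, ?_⟩
      rw [Finset.sum_range_succ, abs_le]
      push_cast
      constructor <;> nlinarith [h.1, h.2, hj2.1, hj2.2]
    · refine ⟨j + 1, by omega, ?_⟩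
      rw [Finset.sum_range_succ, abs_le]
      push_cast
      constructor <;> nlinarith [h.1, h.2, hj2.1, hj2.2]

theorem sum_mem_valueSet (s : ℝ) (x : ℕ → ℝ) (hx : ∀ i, x i ∈ bumps s) {n : ℕ} (hn : 1 ≤ n) :
    (∑ i ∈ Finset.range n, x i) / Real.sqrt n ∈ valueSet s n := by
  obtain ⟨j, hj, hj2⟩ := sum_near s x hx n
  have hn' : (1 : ℝ) ≤ n := by exact_mod_cast hn
  have hs : 0 < Real.sqrt n := Real.sqrt_pos.mpr (by linarith)
  have hss : Real.sqrt n * Real.sqrt n = n := Real.mul_self_sqrt (by linarith)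
  rw [abs_le] at hj2
  simp only [valueSet, mem_iUnion, Finset.mem_range]
  refine ⟨j, by omega, ?_, ?_⟩
  · rw [le_div_iff₀ hs, sub_mul, div_mul_cancel₀ _ hs.ne']
    nlinarith [hj2.1]
  · rw [div_le_iff₀ hs, add_mul, div_mul_cancel₀ _ hs.ne']
    nlinarith [hj2.2]

/-- Disproof of the entropic question: for `M = 16` no finite constant works. -/
theorem result :
    ¬ ∀ M : ℝ, ∃ C : ℝ, ∀ (Ω : Type) (_ : MeasurableSpace Ω) (P : Measure Ω)
      (_ : IsProbabilityMeasure P) (X : ℕ → Ω → ℝ),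
      (∀ i, Measurable (X i)) → iIndepFun X P → (∀ i, IdentDistrib (X i) (X 0) P P) →
      P.map (X 0) ≪ volume →
      ∫ ω, X 0 ω ∂P = 0 → ∫ ω, X 0 ω ^ 2 ∂P = 1 →
      Integrable (fun ω => X 0 ω ^ 4) P → ∫ ω, X 0 ω ^ 4 ∂P ≤ M →
      klDiv (P.map (X 0)) (gaussianReal 0 1) ≠ ∞ →
      ∀ n : ℕ, 1 ≤ n →
        klDiv (P.map (fun ω => (∑ i ∈ Finset.range n, X i ω) / Real.sqrt n)) (gaussianReal 0 1) ≤
          ENNReal.ofReal (C / n) * klDiv (P.map (X 0)) (gaussianReal 0 1) := by
  intro H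
  obtain ⟨C, hC⟩ := H 16
  obtain ⟨n, hn⟩ := exists_nat_ge (max 1 (2 * C))
  have hn1 : (1 : ℝ) ≤ n := (le_max_left _ _).trans hn
  have hn2 : 2 * C ≤ n := (le_max_right _ _).trans hn
  have hn1' : 1 ≤ n := by exact_mod_cast hn1
  set L : ℝ := Real.log (Real.sqrt (2 * Real.pi) * Real.exp 2 / 4) with hL
  set K : ℝ := 2 * Real.log (4 * (n : ℝ) ^ 2) + |L| + 1 with hK
  have hKpos : 0 < K := by
    have : 0 ≤ Real.log (4 * (n : ℝ) ^ 2) := Real.log_nonneg (by nlinarith)
    positivity
  set s : ℝ := min (1 / 2) (Real.exp (-K)) with hs_def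
  have hs : 0 < s := lt_min (by norm_num) (Real.exp_pos _)
  have hs1 : s ≤ 1 / 2 := min_le_left _ _
  have hlogs : K ≤ - Real.log s := by
    have : Real.log s ≤ Real.log (Real.exp (-K)) := Real.log_le_log hs (min_le_right _ _)
    rw [Real.log_exp] at this
    linarith
  have hprob := nu_prob hs hs1
  let P : Measure (ℕ → ℝ) := Measure.infinitePi (fun _ : ℕ => nu s)
  have hP : IsProbabilityMeasure P := by infer_instance
  have hmap : ∀ i, P.map (fun ω : ℕ → ℝ => ω i) = nu s := fun i =>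
    Measure.infinitePi_map_eval (fun _ : ℕ => nu s) i
  have hint : ∀ f : ℝ → ℝ, Continuous f → ∫ ω, f (ω 0) ∂P = ∫ x, f x ∂(nu s) := by
    intro f hf
    rw [← hmap 0, integral_map (measurable_pi_apply 0).aemeasurable hf.aestronglyMeasurable]
  have key := hC (ℕ → ℝ) inferInstance P hP (fun i ω => ω i) (fun i => measurable_pi_apply i)
    (iIndepFun_infinitePi (P := fun _ : ℕ => nu s) (X := fun _ x => x) (fun _ => measurable_id))
    (fun i => ⟨(measurable_pi_apply i).aemeasurable, (measurable_pi_apply 0).aemeasurable,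
      by rw [hmap i, hmap 0]⟩)
    (by rw [hmap 0]; exact nu_ac s)
    (by rw [hint (fun x => x) continuous_id, nu_mean hs hs1])
    (by rw [hint (fun x => x ^ 2) (by fun_prop), nu_sq hs hs1])
    (by
      have h1 := nu_fourth_int hs hs1
      rw [← hmap 0] at h1
      exact h1.comp_measurable (measurable_pi_apply 0))
    (by rw [hint (fun x => x ^ 4) (by fun_prop)]; exact nu_fourth hs hs1)
    (by
      rw [hmap 0]
      exact ne_top_of_le_ne_top ENNReal.ofReal_ne_top (klDiv_nu_le hs hs1))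
    n hn1'
  simp only [hmap 0] at key
  have hS : Measurable (fun ω : ℕ → ℝ => (∑ i ∈ Finset.range n, ω i) / Real.sqrt n) := by
    fun_prop
  have hSprob : IsProbabilityMeasure
      (P.map (fun ω : ℕ → ℝ => (∑ i ∈ Finset.range n, ω i) / Real.sqrt n)) :=
    Measure.isProbabilityMeasure_map hS.aemeasurable
  have hnull : (P.map (fun ω : ℕ → ℝ => (∑ i ∈ Finset.range n, ω i) / Real.sqrt n))
      (valueSet s n)ᶜ = 0 := by
    rw [Measure.map_apply hS (meas_valueSet s n).compl]
    have hall : ∀ᵐ ω ∂P, ∀ i, ω i ∈ bumps s := by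
      rw [ae_all_iff]
      intro i
      have h1 := nu_ae s
      rw [← hmap i] at h1
      exact ae_of_ae_map (measurable_pi_apply i).aemeasurable h1
    have h2 : ∀ᵐ ω ∂P, ω ∉ (fun ω : ℕ → ℝ => (∑ i ∈ Finset.range n, ω i) / Real.sqrt n) ⁻¹'
        (valueSet s n)ᶜ := by
      filter_upwards [hall] with ω hω
      simp only [mem_preimage, mem_compl_iff, not_not]
      exact sum_mem_valueSet s ω hω hn1'
    exact measure_eq_zero_iff_ae_notMem.mpr h2
  have hlow := klDiv_ge (μ := P.map (fun ω : ℕ → ℝ => (∑ i ∈ Finset.range n, ω i) / Real.sqrt n))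
    (ν := gaussianReal 0 1) hnull (q := 4 * (n : ℝ) ^ 2 * s) (by positivity)
    (gaussian_valueSet hs hn1')
  have hup := klDiv_nu_le hs hs1
  have h3 : ENNReal.ofReal (- Real.log (4 * (n : ℝ) ^ 2 * s)) ≤
      ENNReal.ofReal (1 / 2) * ENNReal.ofReal (- Real.log s + L) := by
    refine (hlow.trans key).trans (mul_le_mul' ?_ hup)
    apply ENNReal.ofReal_le_ofReal
    rw [div_le_iff₀ (by linarith)]
    linarith
  have habs : -|L| ≤ L ∧ L ≤ |L| := ⟨neg_abs_le L, le_abs_self L⟩
  have hlog4 : 0 ≤ Real.log (4 * (n : ℝ) ^ 2) := Real.log_nonneg (by nlinarith)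
  rw [← ENNReal.ofReal_mul (by norm_num), ENNReal.ofReal_le_ofReal_iff (by
    have : 0 ≤ - Real.log s + L := by linarith [habs.1]
    linarith), Real.log_mul (by positivity) hs.ne'] at h3
  linarith [habs.1, habs.2]

end Pool.Agent.Results.MP_e841a3_pr.EntropyRateFails
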